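import Pool.Agent.H482R3.EA.Stm

set_option autoImplicit false

/-! Task PTN: points not near. -/

namespace Pool.Agent.H344R3.EA

open Pool.Agent.H482R3.EA
open Pool.Agent.H482R3.EA.NF

theorem t_PTN (hR : S_REP) (_hU : S_UNI) (hN : S_UPN) (hM : S_UPM) (hAN : S_ACTN)
    (h0 : S_A0) : S_PTN := by
  intro S h l p n hv hpl hnear
  have hnD : ¬ InD S l (st h) := by
    intro hD
    apply hnear
    cases hs : st h with
    | none => rw [hs] at hD; exact hD.elim
    | ln m =>
      rw [hs] at hD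
      have e : l = m := hD
      subst e
      exact hpl
    | pt r => rw [hs] at hD; exact ⟨l, hD, hpl⟩
  by_cases hn : n = 0
  · subst hn
    rw [zpow_zero, if_pos rfl]
    exact h0 S h l hv
  rw [if_neg hn, hAN S h l _ hnD]
  have hy1 : S.x l p ^ n ≠ 1 := fun e => hn (S.X0 l p n hpl e)
  by_cases hmeet : ∀ q, S.I q l → ¬ Near S q (st h)
  · rw [hN S h l _ hmeet]
    unfold att
    rw [if_neg hy1]
    have H : ∃ (s : S.P) (c : ℤ), S.I s l ∧ S.x l p ^ n = S.x l s ^ c := ⟨p, n, hpl, rfl⟩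
    rw [dif_pos H]
    have hs := H.choose_spec.choose_spec
    have key : ∀ (s : S.P) (c : ℤ), S.I s l → S.x l p ^ n = S.x l s ^ c → s = p ∧ c = n := by
      intro s c hsl e
      have e1 : s = p := by
        by_contra hne
        have h1 := S.L1 l p s n (-c) hpl hsl (Ne.symm hne) (by rw [e, zpow_neg, mul_inv_cancel])
        exact hn h1.1
      subst e1
      refine ⟨rfl, ?_⟩
      have h1 := S.X0 l s (n - c) hpl (by rw [zpow_sub, e, mul_inv_cancel])
      omega
    obtain ⟨k1, k2⟩ := key _ _ hs.1 hs.2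
    exact congrArg₂ (fun s c => NF.pt h s c) k1 k2
  · push Not at hmeet
    obtain ⟨q, hql, hqN⟩ := hmeet
    have hqp : q ≠ p := by
      intro e
      subst e
      exact hnear hqN
    obtain ⟨m, hmD, hqm⟩ : ∃ m, InD S m (st h) ∧ S.I q m := by
      cases hs : st h with
      | none => rw [hs] at hqN; exact hqN.elim
      | ln m => rw [hs] at hqN; exact ⟨m, rfl, hqN⟩
      | pt r =>
        rw [hs] at hqN
        obtain ⟨m, h1, h2⟩ := hqN
        exact ⟨m, h1, h2⟩
    rw [hM S h l _ q m hnD hql hqN hmD hqm]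
    obtain ⟨r1, -, -, r4, -⟩ := hR S l q hql (S.x l p ^ n)
    have ht1 : rep S l q (S.x l p ^ n) ≠ 1 := by
      intro e
      obtain ⟨a, ha⟩ := r4.mp e
      have h1 := S.L1 l p q n (-a) hpl hql (Ne.symm hqp) (by rw [ha, zpow_neg, mul_inv_cancel])
      exact hn h1.1
    have H : ∃ (s : S.P) (b c : ℤ), S.I s l ∧ s ≠ q ∧
        rep S l q (S.x l p ^ n) = S.x l q ^ b * S.x l s ^ c := by
      refine ⟨p, -(cf S l q (S.x l p ^ n)), n, hpl, Ne.symm hqp, ?_⟩
      rw [zpow_neg, eq_inv_mul_iff_mul_eq]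
      exact r1.symm
    have key : ∀ (s : S.P) (b c : ℤ), S.I s l → s ≠ q →
        rep S l q (S.x l p ^ n) = S.x l q ^ b * S.x l s ^ c →
        cf S l q (S.x l p ^ n) + b = 0 ∧ s = p ∧ c = n := by
      intro s b c hsl hsq e
      have e2 : S.x l p ^ n = S.x l q ^ (cf S l q (S.x l p ^ n) + b) * S.x l s ^ c := by
        rw [zpow_add, mul_assoc, ← e]
        exact r1
      generalize cf S l q (S.x l p ^ n) + b = d at e2
      have e1 : s = p := by
        by_contra hne
        have h1 := S.L2 l q s p d c (-n) hql hsl hpl (Ne.symm hsq) hne hqp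
          (by rw [← e2, zpow_neg, mul_inv_cancel])
        omega
      subst e1
      have h1 := S.L1 l q s d (c - n) hql hsl (Ne.symm hsq) (by
        rw [zpow_sub, ← mul_assoc, ← e2, mul_inv_cancel])
      exact ⟨h1.1, rfl, by omega⟩
    have hs := H.choose_spec.choose_spec.choose_spec
    obtain ⟨k1, k2, k3⟩ := key _ _ _ hs.1 hs.2.1 hs.2.2
    unfold attM
    dsimp only
    rw [if_neg ht1, dif_pos H]
    have k4 : act h m (S.x m q ^ (cf S l q (S.x l p ^ n) + H.choose_spec.choose)) = h := by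
      rw [k1, zpow_zero]
      exact h0 S h m hv
    rw [k4]
    exact congrArg₂ (fun s c => NF.pt h s c) k2 k3

end Pool.Agent.H344R3.EA
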